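import Pool.Agent.SSL.GenD

/-!
# The generic extension of the elementary submodel: names
-/

namespace Pool.Agent.SSL

open Set Pool.Agent.Helper79.ZF Pool.Agent.Helper79.Kurepa

namespace Cx

section
variable {P : Type 1} {X : Type} [PartialOrder P] {S N : Type} [Membership S S] [Membership N N] [ZFCM S]
  [ZFModel N] (c : Cx P X S N)

private theorem e_op (a b : S) : c.e (opair a b) = ZFSet.pair (c.e a) (c.e b) := by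
  rw [← c.he.pair, isPair_iff]

private theorem Md_of {u : Ob P X} {s : S} (h : c.e s = code u) : c.Md u ∧ s = c.mm u := by
  have hM : c.Md u := ⟨s, h⟩
  exact ⟨hM, c.he.inj (h.trans (mm_spec hM).symm)⟩

private theorem mem_G_iff {p : P} : p ∈ c.G ↔ c.Md (.p p) ∧ opair (c.g.j (c.mm (.p p))) (c.g.j emp) ∈ c.g.G := by
  rw [← c.g.j_opair]
  rfl

theorem set1 {R : Set (P × X)} (hR : c.Md (.r1 R)) :
    ∃ t : N, ∀ z : N, z ∈ t ↔ ∃ x, c.Md (.x x) ∧ z = c.j x ∧ ∃ p ∈ c.G, (p, x) ∈ R := by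
  refine ⟨sepS (c.g.j c.XM) (fun z => ∃ p : N, opair p (c.g.j emp) ∈ c.g.G ∧ opair p z ∈ c.g.j (c.mm (.r1 R))), ?_⟩
  intro z
  rw [mem_sepS (by fun_prop)]
  constructor
  · rintro ⟨hz, p, hp, hpz⟩
    obtain ⟨a, b, rfl, rfl, hab⟩ := c.g.opair_mem_j hpz
    obtain ⟨p', x, hpx, hp', hx, hs⟩ := (mem_r1 hR).1 hab
    rw [opair_inj] at hs
    obtain ⟨rfl, rfl⟩ := hs
    exact ⟨x, hx, rfl, p', c.mem_G_iff.2 ⟨hp', hp⟩, hpx⟩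
  · rintro ⟨x, hx, rfl, p, hp, hpx⟩
    obtain ⟨hp1, hp2⟩ := c.mem_G_iff.1 hp
    refine ⟨c.g.j_mem_j.2 (mem_XM.2 ⟨x, hx, rfl⟩), c.g.j (c.mm (.p p)), hp2, ?_⟩
    exact c.g.j_opair_mem.2 ((mem_r1 hR).2 ⟨p, x, hpx, hp1, hx, rfl⟩)

theorem name1 (t : N) : ∃ R : Set (P × X), c.Md (.r1 R) ∧ ∀ x, c.Md (.x x) → (c.j x ∈ t ↔ ∃ p ∈ c.G, (p, x) ∈ R) := by
  obtain ⟨ρ, hρ, h⟩ := c.g.name t
  have hρd := hρ.df
  have hdef : DefP S (fun z : S => ρ (fst z) emp (snd z)) :=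
    DefP_comp (R := fun t : S × (S × S) => ρ t.1 t.2.1 t.2.2) hρd (f := fun z : S => (fst z, (emp, snd z))) (by fun_prop)
  set T : S := sepS (prodS c.PM c.XM) (fun z => ρ (fst z) emp (snd z)) with hT
  have hTm : ∀ z, z ∈ T ↔ z ∈ prodS c.PM c.XM ∧ ρ (fst z) emp (snd z) := fun z => mem_sepS hdef
  have hrel := c.he.rel2 (t := T) (A := c.PM) (B := c.XM) (by
    intro z hz
    obtain ⟨a, b, ha, hb, rfl⟩ := mem_prodS.1 ((hTm z).1 hz).1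
    exact ⟨a, ha, b, hb, isPair_iff.2 rfl⟩)
  let R : Set (P × X) := {q | ZFSet.pair (cP q.1) (cX q.2) ∈ c.e T}
  have hcode : c.e T = code (.r1 R : Ob P X) := by
    ext w
    rw [mem_code_r1]
    constructor
    · intro hw
      obtain ⟨a, ha, b, hb, rfl⟩ := hrel w hw
      rw [c.hPM, mem_code_dp] at ha
      rw [c.hXM, mem_code_dx] at hb
      obtain ⟨p, -, rfl⟩ := ha
      obtain ⟨x, -, rfl⟩ := hb
      exact ⟨p, x, hw, rfl⟩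
    · rintro ⟨p, x, hw, rfl⟩
      exact hw
  refine ⟨R, ⟨T, hcode⟩, fun x hx => ?_⟩
  have key : ∀ p, c.Md (.p p) → ((p, x) ∈ R ↔ ρ (c.mm (.p p)) emp (c.mm (.x x))) := by
    intro p hp
    have h1 : ((p, x) ∈ R) ↔ opair (c.mm (.p p)) (c.mm (.x x)) ∈ T := by
      rw [c.he.mem, c.e_op, mm_spec hp, mm_spec hx]
      rfl
    rw [h1, hTm, fst_opair, snd_opair, opair_mem_prodS]
    exact ⟨fun h => h.2, fun h => ⟨⟨mem_PM.2 ⟨p, hp, rfl⟩, mem_XM.2 ⟨x, hx, rfl⟩⟩, h⟩⟩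
  show c.g.j (c.mm (.x x)) ∈ t ↔ _
  rw [h]
  constructor
  · rintro ⟨p, r, hG, hr⟩
    obtain ⟨hp, hr'⟩ := c.g.G_mem hG
    obtain ⟨p', hp', rfl⟩ := mem_PM.1 hp
    obtain rfl := mem_sing.1 hr'
    exact ⟨p', ⟨hp', hG⟩, (key p' hp').2 hr⟩
  · rintro ⟨p, ⟨hp, hG⟩, hpx⟩
    exact ⟨c.mm (.p p), emp, hG, (key p hp).1 hpx⟩

theorem set2 {R : Set (P × X × X)} (hR : c.Md (.r2 R)) : ∃ t : N, ∀ x y, c.Md (.x x) → c.Md (.x y) →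
    (MRel t (c.j x) (c.j y) ↔ ∃ p ∈ c.G, (p, x, y) ∈ R) := by
  refine ⟨sepS (prodS (c.g.j c.XM) (c.g.j c.XM)) (fun z => ∃ p : N, opair p (c.g.j emp) ∈ c.g.G ∧
    opair p z ∈ c.g.j (c.mm (.r2 R))), ?_⟩
  intro x y hx hy
  have h0 : ∀ t : N, MRel t (c.j x) (c.j y) ↔ opair (c.j x) (c.j y) ∈ t := by
    intro t
    unfold MRel
    simp only [isPair_iff]
    exact ⟨fun ⟨p, hp, hp'⟩ => hp' ▸ hp, fun h => ⟨_, h, rfl⟩⟩
  rw [h0, mem_sepS (by fun_prop)]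
  have h1 : opair (c.j x) (c.j y) = c.g.j (opair (c.mm (.x x)) (c.mm (.x y))) := (c.g.j_opair _ _).symm
  constructor
  · rintro ⟨hz, p, hp, hpz⟩
    rw [h1] at hpz
    obtain ⟨a, b, rfl, hb, hab⟩ := c.g.opair_mem_j hpz
    have hb' := c.g.inj hb
    subst hb'
    obtain ⟨p', x', y', hpx, hp', hx', hy', hs⟩ := (mem_r2 hR).1 hab
    rw [opair_inj, opair_inj] at hs
    obtain ⟨rfl, h2, h3⟩ := hs
    obtain rfl := mm_x_inj hx hx' h2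
    obtain rfl := mm_x_inj hy hy' h3
    exact ⟨p', c.mem_G_iff.2 ⟨hp', hp⟩, hpx⟩
  · rintro ⟨p, hp, hpx⟩
    obtain ⟨hp1, hp2⟩ := c.mem_G_iff.1 hp
    refine ⟨opair_mem_prodS.2 ⟨c.g.j_mem_j.2 (mem_XM.2 ⟨x, hx, rfl⟩), c.g.j_mem_j.2 (mem_XM.2 ⟨y, hy, rfl⟩)⟩,
      c.g.j (c.mm (.p p)), hp2, ?_⟩
    rw [h1]
    exact c.g.j_opair_mem.2 ((mem_r2 hR).2 ⟨p, x, y, hpx, hp1, hx, hy, rfl⟩)

theorem name2 (t : N) : ∃ R : Set (P × X × X), c.Md (.r2 R) ∧ ∀ x y, c.Md (.x x) → c.Md (.x y) →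
    (MRel t (c.j x) (c.j y) ↔ ∃ p ∈ c.G, (p, x, y) ∈ R) := by
  obtain ⟨ρ, hρ, h⟩ := c.g.name t
  have hρd := hρ.df
  have hdef : DefP S (fun z : S => ρ (fst z) emp (snd z)) :=
    DefP_comp (R := fun t : S × (S × S) => ρ t.1 t.2.1 t.2.2) hρd (f := fun z : S => (fst z, (emp, snd z))) (by fun_prop)
  set T : S := sepS (prodS c.PM (prodS c.XM c.XM)) (fun z => ρ (fst z) emp (snd z)) with hT
  have hTm : ∀ z, z ∈ T ↔ z ∈ prodS c.PM (prodS c.XM c.XM) ∧ ρ (fst z) emp (snd z) := fun z => mem_sepS hdef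
  have hrel := c.he.rel3 (t := T) (A := c.PM) (B := c.XM) (by
    intro z hz
    obtain ⟨a, d, ha, hd, rfl⟩ := mem_prodS.1 ((hTm z).1 hz).1
    obtain ⟨b, b', hb, hb', rfl⟩ := mem_prodS.1 hd
    exact ⟨a, ha, b, hb, b', hb', opair b b', isPair_iff.2 rfl, isPair_iff.2 rfl⟩)
  let R : Set (P × X × X) := {q | ZFSet.pair (cP q.1) (ZFSet.pair (cX q.2.1) (cX q.2.2)) ∈ c.e T}
  have hcode : c.e T = code (.r2 R : Ob P X) := by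
    ext w
    rw [mem_code_r2]
    constructor
    · intro hw
      obtain ⟨a, ha, b, hb, b', hb', rfl⟩ := hrel w hw
      rw [c.hPM, mem_code_dp] at ha
      rw [c.hXM, mem_code_dx] at hb hb'
      obtain ⟨p, -, rfl⟩ := ha
      obtain ⟨x, -, rfl⟩ := hb
      obtain ⟨y, -, rfl⟩ := hb'
      exact ⟨p, x, y, hw, rfl⟩
    · rintro ⟨p, x, y, hw, rfl⟩
      exact hw
  refine ⟨R, ⟨T, hcode⟩, fun x y hx hy => ?_⟩
  have key : ∀ p, c.Md (.p p) → ((p, x, y) ∈ R ↔ ρ (c.mm (.p p)) emp (opair (c.mm (.x x)) (c.mm (.x y)))) := by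
    intro p hp
    have h1 : ((p, x, y) ∈ R) ↔ opair (c.mm (.p p)) (opair (c.mm (.x x)) (c.mm (.x y))) ∈ T := by
      rw [c.he.mem, c.e_op, c.e_op, mm_spec hp, mm_spec hx, mm_spec hy]
      rfl
    rw [h1, hTm, fst_opair, snd_opair, opair_mem_prodS, opair_mem_prodS]
    exact ⟨fun h => h.2, fun h => ⟨⟨mem_PM.2 ⟨p, hp, rfl⟩, mem_XM.2 ⟨x, hx, rfl⟩, mem_XM.2 ⟨y, hy, rfl⟩⟩, h⟩⟩
  have h0 : MRel t (c.j x) (c.j y) ↔ c.g.j (opair (c.mm (.x x)) (c.mm (.x y))) ∈ t := by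
    rw [c.g.j_opair]
    unfold MRel
    simp only [isPair_iff]
    exact ⟨fun ⟨p, hp, hp'⟩ => hp' ▸ hp, fun h => ⟨_, h, rfl⟩⟩
  rw [h0, h]
  constructor
  · rintro ⟨p, r, hG, hr⟩
    obtain ⟨hp, hr'⟩ := c.g.G_mem hG
    obtain ⟨p', hp', rfl⟩ := mem_PM.1 hp
    obtain rfl := mem_sing.1 hr'
    exact ⟨p', ⟨hp', hG⟩, (key p' hp').2 hr⟩
  · rintro ⟨p, ⟨hp, hG⟩, hpx⟩
    exact ⟨c.mm (.p p), emp, hG, (key p hp).1 hpx⟩

end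

end Cx

end Pool.Agent.SSL
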