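import Pool.Agent.SSL.GenE
import Pool.Agent.SSL.GenF
import Pool.Agent.Helper79.Kurepa.Abs

/-!
# The interface theorem
-/

namespace Pool.Agent.SSL

open Set Pool.Agent.Helper79.ZF Pool.Agent.Helper79.Kurepa

/-- **Interface.** -/
theorem exists_genX (P : Type 1) (X : Type) [PartialOrder P] [Nonempty P] {ι : Type} [Countable ι]
    (F : ι → List (Ob P X) → Ob P X) :
    ∃ (𝓜 : Set (Ob P X)) (N : Type) (_ : Membership N N) (j : X → N) (G : Set P), GenX P X F 𝓜 N j G := by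
  classical
  obtain ⟨p0⟩ := (inferInstance : Nonempty P)
  let F' : ι ⊕ Fin 3 → List (Ob P X) → Ob P X := fun i l =>
    Sum.elim (fun i => F i l) (fun k => (![Ob.dp univ, Ob.dx univ, Ob.p p0] : Fin 3 → Ob P X) k) i
  obtain ⟨S, mS, e, hS, _, he, hcl⟩ := exists_M F'
  have hz : ZFCM S := { toZFModel := he.zfc.1, ac := he.zfc.2 }
  obtain ⟨PM, hPM⟩ := hcl (Sum.inr 0) [] (by simp)
  obtain ⟨XM, hXM⟩ := hcl (Sum.inr 1) [] (by simp)
  obtain ⟨s0, hs0⟩ := hcl (Sum.inr 2) [] (by simp)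
  have hPM' : e PM = code (Ob.dp univ : Ob P X) := hPM
  have hXM' : e XM = code (Ob.dx univ : Ob P X) := hXM
  have hs0' : e s0 = cP p0 := hs0
  have hs : s0 ∈ PM := by
    rw [he.mem, hPM', hs0']
    exact mem_code_dp.2 ⟨p0, mem_univ _, rfl⟩
  obtain ⟨N, mN, zN, ⟨g⟩⟩ := exists_genExt (M := S) PM (sing emp) ⟨s0, hs⟩ ⟨emp, mem_sing.2 rfl⟩
  let c : Cx P X S N := ⟨e, he, PM, XM, hPM', hXM', g⟩
  exact ⟨{u | c.Md u}, N, mN, c.j, c.G,
    { zfc := ⟨zN, g.zfc.ac⟩
      closed := fun i l hl => hcl (Sum.inl i) l hl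
      Gsub := fun p hp => hp.1
      up := fun p hp q hpq hq => c.up hp hpq hq
      dir := fun p hp q hq => c.dir hp hq
      ne := c.G_ne
      gen := fun E hE hd => c.gen hE hd
      inj := fun x y hx hy h => c.j_inj hx hy h
      set1 := fun R hR => c.set1 hR
      name1 := fun t => c.name1 t
      set2 := fun R hR => c.set2 hR
      name2 := fun t => c.name2 t
      ctb := fun A hA hc t ht W hW => c.ctb hA hc ht hW
      unc := fun A hA hc hi t W hW ht => c.unc hA hc hi hW ht }⟩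

end Pool.Agent.SSL
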