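import Pool.Agent.Helper79.Kurepa.Elem

/-!
# Countable elementary submodels of the universe, closed under countably many functions
-/

namespace Pool.Agent.SSL

open FirstOrder Set Cardinal Pool.Agent.Helper79.ZF Pool.Agent.Helper79.Kurepa

universe u

/-- A type with a membership relation is a structure for the language of set theory. -/
@[reducible] def strU (M : Type u) [Membership M M] : LSet.Structure M where
  funMap := fun f => f.elim
  RelMap := fun {_} r => memRel.rec (motive := fun n _ => (Fin n → M) → Prop) (fun x => x 0 ∈ x 1) r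

/-- an elementary embedding -/
def ElemU {S : Type} {M : Type u} [Membership S S] [Membership M M] (e : S → M) : Prop :=
  ∀ (α : Type) (φ : LSet.Formula α) (v : α → S),
    @Language.Formula.Realize LSet M (strU M) α φ (fun i => e (v i)) ↔
    @Language.Formula.Realize LSet S (strU S) α φ v

/-- one function symbol of every arity for every element of `ι` -/
def LFun (ι : Type) : FirstOrder.Language.{0, 0} := ⟨fun _ => ι, fun _ => Empty⟩

/-- the interpretation of the function symbols -/
@[reducible] def strF {ι : Type} {M : Type u} (F : ι → List M → M) : (LFun ι).Structure M where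
  funMap := fun {n} (i : ι) (x : Fin n → M) => F i (List.ofFn x)
  RelMap := fun r => r.elim

theorem aleph0_le_zfset : ℵ₀ ≤ #ZFSet.{1} := by
  by_contra h
  have hf : Finite ZFSet.{1} := Cardinal.lt_aleph0_iff_finite.1 (not_le.1 h)
  have : Small.{1} ZFSet.{1} := Countable.toSmall _
  have h1 : ∀ x : ZFSet.{1}, x ∈ ZFSet.range (fun y : ZFSet.{1} => y) := fun x => ZFSet.mem_range.2 ⟨x, rfl⟩
  exact ZFSet.mem_irrefl _ (h1 _)

theorem card_LSum (ι : Type) [Countable ι] : (LSet.sum (LFun ι)).card ≤ ℵ₀ := by
  rw [Language.card_sum]
  have h1 : LSet.card ≤ ℵ₀ := by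
    rw [Language.card, Cardinal.mk_le_aleph0_iff]
    unfold Language.Symbols LSet
    have : Countable (Σ l, memRel l) := by
      apply Function.Injective.countable (f := fun (_ : Σ l, memRel l) => ())
      rintro ⟨l, a⟩ ⟨l', b⟩ _
      cases a; cases b; rfl
    infer_instance
  have h2 : (LFun ι).card ≤ ℵ₀ := by
    rw [Language.card, Cardinal.mk_le_aleph0_iff]
    unfold Language.Symbols
    have h3 : Countable (Σ l, (LFun ι).Functions l) := inferInstanceAs (Countable (Σ _ : ℕ, ι))
    have h4 : Countable (Σ l, (LFun ι).Relations l) := inferInstanceAs (Countable (Σ _ : ℕ, Empty))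
    infer_instance
  have h3 := add_le_add (Cardinal.lift_le.{0}.2 h1) (Cardinal.lift_le.{0}.2 h2)
  simpa using h3

/-- the downward Löwenheim-Skolem theorem -/
theorem exists_sub {ι : Type} [Countable ι] (F : ι → List ZFSet.{1} → ZFSet.{1}) :
    ∃ (S : Type) (_ : Membership S S) (e : S → ZFSet.{1}), Countable S ∧ Function.Injective e ∧ ElemU e ∧
      ∀ (i : ι) (l : List S), ∃ s, e s = F i (l.map e) := by
  letI s1 : LSet.Structure ZFSet.{1} := strU ZFSet.{1}
  letI s2 : (LFun ι).Structure ZFSet.{1} := strF F
  obtain ⟨S, _, hS⟩ := Language.exists_elementarySubstructure_card_eq (LSet.sum (LFun ι)) (∅ : Set ZFSet.{1})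
    (ℵ₀ : Cardinal.{0}) le_rfl (by simp) (by simpa using card_LSum ι) (by simpa using aleph0_le_zfset)
  have hc : Countable S := by
    have : #S = ℵ₀ := by simpa using hS
    exact Cardinal.mk_le_aleph0_iff.1 this.le
  have : Small.{0} S := Countable.toSmall _
  let g : S ≃ Shrink.{0} S := equivShrink S
  let e : Shrink.{0} S → ZFSet.{1} := fun x => (g.symm x).1
  letI mS : Membership (Shrink.{0} S) (Shrink.{0} S) := ⟨fun y x => e x ∈ e y⟩
  refine ⟨Shrink.{0} S, mS, e, ?_, ?_, ?_, ?_⟩
  · exact g.symm.injective.countable
  · intro x y h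
    exact g.symm.injective (Subtype.ext h)
  · intro α φ v
    -- the structure on `S`
    letI t1 : LSet.Structure S := (Language.LHom.sumInl : LSet →ᴸ LSet.sum (LFun ι)).reduct S
    letI t2 : LSet.Structure (Shrink.{0} S) := strU _
    have h1 : (Language.LHom.sumInl.onFormula φ : (LSet.sum (LFun ι)).Formula α).Realize (fun i => e (v i)) ↔
        φ.Realize (fun i => e (v i)) := Language.LHom.realize_onFormula _ φ
    have h2 : (Language.LHom.sumInl.onFormula φ : (LSet.sum (LFun ι)).Formula α).Realize (fun i => g.symm (v i)) ↔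
        φ.Realize (fun i => g.symm (v i)) := Language.LHom.realize_onFormula _ φ
    have h3 : (Language.LHom.sumInl.onFormula φ : (LSet.sum (LFun ι)).Formula α).Realize (fun i => e (v i)) ↔
        (Language.LHom.sumInl.onFormula φ : (LSet.sum (LFun ι)).Formula α).Realize (fun i => g.symm (v i)) :=
      S.subtype.map_formula _ _
    let G : Shrink.{0} S ≃[LSet] S := { g.symm with
      map_fun' := fun {n} f _ => Empty.elim f
      map_rel' := by
        intro n r x
        cases r
        exact Iff.rfl }
    have h4 : φ.Realize (G ∘ v) ↔ φ.Realize v := Language.StrongHomClass.realize_formula G φ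
    exact (h1.symm.trans (h3.trans h2)).trans h4
  · intro i l
    have h := S.toSubstructure.fun_mem (n := l.length) (Sum.inr i : (LSet.sum (LFun ι)).Functions l.length)
      (fun k => e (l.get k)) (fun k => (g.symm (l.get k)).2)
    refine ⟨g ⟨_, h⟩, ?_⟩
    have h5 : e (g ⟨_, h⟩) = F i (List.ofFn (fun k => e (l.get k))) := by
      simp only [e, Equiv.symm_apply_apply]
      rfl
    rw [h5]
    congr 1
    apply List.ext_get
    · simp
    · intro n h1 h2
      simp

end Pool.Agent.SSL
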