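import Pool.Agent.SSL.GenX
import Pool.Agent.SSL.LSU

/-!
# Codes of objects
-/

namespace Pool.Agent.SSL

open Set Pool.Agent.Helper79.ZF Pool.Agent.Helper79.Kurepa

/-- every small type can be coded by sets -/
theorem exists_inj (X : Type 1) : ∃ c : X → ZFSet.{1}, Function.Injective c :=
  ⟨fun x => ZFSet.vonNeumann (Ordinal.typein WellOrderingRel x),
    ZFSet.vonNeumann_injective.comp (Ordinal.typein_injective _)⟩

/-- codes of the elements of a type -/
noncomputable def cI (X : Type 1) : X → ZFSet.{1} := (exists_inj X).choose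

theorem cI_inj (X : Type 1) : Function.Injective (cI X) := (exists_inj X).choose_spec

section
variable {P : Type 1} {X : Type} [PartialOrder P]

/-- the code of a condition: the set of all weaker conditions -/
noncomputable def cP (p : P) : ZFSet.{1} := ZFSet.range (fun r : {r : P // p ≤ r} => cI P r.1)

/-- the code of a point -/
noncomputable def cX (x : X) : ZFSet.{1} := cI (ULift.{1} X) ⟨x⟩

theorem cP_sub {p q : P} : cP p ⊆ cP q ↔ q ≤ p := by
  constructor
  · intro h
    have h1 : cI P p ∈ cP p := ZFSet.mem_range.2 ⟨⟨p, le_rfl⟩, rfl⟩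
    obtain ⟨⟨r, hr⟩, h2⟩ := ZFSet.mem_range.1 (h h1)
    have h3 := cI_inj P h2
    subst h3
    exact hr
  · intro h z hz
    obtain ⟨⟨r, hr⟩, h2⟩ := ZFSet.mem_range.1 hz
    exact ZFSet.mem_range.2 ⟨⟨r, h.trans hr⟩, h2⟩

theorem cP_inj {p q : P} (h : cP p = cP q) : p = q :=
  le_antisymm (cP_sub.1 h.ge) (cP_sub.1 h.le)

theorem cX_inj {x y : X} (h : cX x = cX y) : x = y := by
  have h1 := cI_inj (ULift.{1} X) h
  exact congrArg ULift.down h1

/-- codes of objects -/
noncomputable def code : Ob P X → ZFSet.{1}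
  | .p a => cP a
  | .x a => cX a
  | .dp E => ZFSet.range (fun p : E => cP p.1)
  | .dx A => ZFSet.range (fun x : ULift.{1} A => cX x.down.1)
  | .r1 R => ZFSet.range (fun z : R => ZFSet.pair (cP z.1.1) (cX z.1.2))
  | .r2 R => ZFSet.range (fun z : R => ZFSet.pair (cP z.1.1) (ZFSet.pair (cX z.1.2.1) (cX z.1.2.2)))

theorem mem_code_dp {E : Set P} {z : ZFSet.{1}} : z ∈ code (.dp E : Ob P X) ↔ ∃ p ∈ E, z = cP p := by
  simp only [code, ZFSet.mem_range]
  constructor
  · rintro ⟨⟨p, hp⟩, h⟩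
    exact ⟨p, hp, h.symm⟩
  · rintro ⟨p, hp, h⟩
    exact ⟨⟨p, hp⟩, h.symm⟩

theorem mem_code_dx {A : Set X} {z : ZFSet.{1}} : z ∈ code (.dx A : Ob P X) ↔ ∃ x ∈ A, z = cX x := by
  simp only [code, ZFSet.mem_range]
  constructor
  · rintro ⟨⟨⟨x, hx⟩⟩, h⟩
    exact ⟨x, hx, h.symm⟩
  · rintro ⟨x, hx, h⟩
    exact ⟨⟨⟨x, hx⟩⟩, h.symm⟩

theorem mem_code_r1 {R : Set (P × X)} {z : ZFSet.{1}} :
    z ∈ code (.r1 R : Ob P X) ↔ ∃ p x, (p, x) ∈ R ∧ z = ZFSet.pair (cP p) (cX x) := by
  simp only [code, ZFSet.mem_range]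
  constructor
  · rintro ⟨⟨⟨p, x⟩, hp⟩, h⟩
    exact ⟨p, x, hp, h.symm⟩
  · rintro ⟨p, x, hp, h⟩
    exact ⟨⟨(p, x), hp⟩, h.symm⟩

theorem mem_code_r2 {R : Set (P × X × X)} {z : ZFSet.{1}} :
    z ∈ code (.r2 R : Ob P X) ↔ ∃ p x y, (p, x, y) ∈ R ∧ z = ZFSet.pair (cP p) (ZFSet.pair (cX x) (cX y)) := by
  simp only [code, ZFSet.mem_range]
  constructor
  · rintro ⟨⟨⟨p, x, y⟩, hp⟩, h⟩
    exact ⟨p, x, y, hp, h.symm⟩
  · rintro ⟨p, x, y, hp, h⟩
    exact ⟨⟨(p, x, y), hp⟩, h.symm⟩

/-- the kind of an object -/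
def kindOf : Ob P X → ℕ
  | .p _ => 0
  | .x _ => 1
  | .dp _ => 2
  | .dx _ => 3
  | .r1 _ => 4
  | .r2 _ => 5

/-- objects of the same kind with the same code are equal -/
theorem code_inj_kind {u v : Ob P X} (hk : kindOf u = kindOf v) (h : code u = code v) : u = v := by
  cases u <;> cases v <;> simp only [kindOf] at hk <;> try omega
  · rw [cP_inj h]
  · rw [cX_inj h]
  · rename_i a b
    have h1 : a = b := by
      ext p
      constructor
      · intro hp
        have h2 : cP p ∈ code (.dp b : Ob P X) := by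
          rw [← h]
          exact mem_code_dp.2 ⟨p, hp, rfl⟩
        obtain ⟨q, hq, h3⟩ := mem_code_dp.1 h2
        rwa [cP_inj h3]
      · intro hp
        have h2 : cP p ∈ code (.dp a : Ob P X) := by
          rw [h]
          exact mem_code_dp.2 ⟨p, hp, rfl⟩
        obtain ⟨q, hq, h3⟩ := mem_code_dp.1 h2
        rwa [cP_inj h3]
    rw [h1]
  · rename_i a b
    have h1 : a = b := by
      ext p
      constructor
      · intro hp
        have h2 : cX p ∈ code (.dx b : Ob P X) := by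
          rw [← h]
          exact mem_code_dx.2 ⟨p, hp, rfl⟩
        obtain ⟨q, hq, h3⟩ := mem_code_dx.1 h2
        rwa [cX_inj h3]
      · intro hp
        have h2 : cX p ∈ code (.dx a : Ob P X) := by
          rw [h]
          exact mem_code_dx.2 ⟨p, hp, rfl⟩
        obtain ⟨q, hq, h3⟩ := mem_code_dx.1 h2
        rwa [cX_inj h3]
    rw [h1]
  · rename_i a b
    have h1 : a = b := by
      ext ⟨p, x⟩
      constructor
      · intro hp
        have h2 : ZFSet.pair (cP p) (cX x) ∈ code (.r1 b : Ob P X) := by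
          rw [← h]
          exact mem_code_r1.2 ⟨p, x, hp, rfl⟩
        obtain ⟨q, y, hq, h3⟩ := mem_code_r1.1 h2
        obtain ⟨h4, h5⟩ := ZFSet.pair_inj.1 h3
        rwa [cP_inj h4, cX_inj h5]
      · intro hp
        have h2 : ZFSet.pair (cP p) (cX x) ∈ code (.r1 a : Ob P X) := by
          rw [h]
          exact mem_code_r1.2 ⟨p, x, hp, rfl⟩
        obtain ⟨q, y, hq, h3⟩ := mem_code_r1.1 h2
        obtain ⟨h4, h5⟩ := ZFSet.pair_inj.1 h3
        rwa [cP_inj h4, cX_inj h5]
    rw [h1]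
  · rename_i a b
    have h1 : a = b := by
      ext ⟨p, x, x'⟩
      constructor
      · intro hp
        have h2 : ZFSet.pair (cP p) (ZFSet.pair (cX x) (cX x')) ∈ code (.r2 b : Ob P X) := by
          rw [← h]
          exact mem_code_r2.2 ⟨p, x, x', hp, rfl⟩
        obtain ⟨q, y, y', hq, h3⟩ := mem_code_r2.1 h2
        obtain ⟨h4, h5⟩ := ZFSet.pair_inj.1 h3
        obtain ⟨h6, h7⟩ := ZFSet.pair_inj.1 h5
        rwa [cP_inj h4, cX_inj h6, cX_inj h7]
      · intro hp
        have h2 : ZFSet.pair (cP p) (ZFSet.pair (cX x) (cX x')) ∈ code (.r2 a : Ob P X) := by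
          rw [h]
          exact mem_code_r2.2 ⟨p, x, x', hp, rfl⟩
        obtain ⟨q, y, y', hq, h3⟩ := mem_code_r2.1 h2
        obtain ⟨h4, h5⟩ := ZFSet.pair_inj.1 h3
        obtain ⟨h6, h7⟩ := ZFSet.pair_inj.1 h5
        rwa [cP_inj h4, cX_inj h6, cX_inj h7]
    rw [h1]

open Classical in
/-- decoding -/
noncomputable def decOb (k : ℕ) (z : ZFSet.{1}) : Ob P X :=
  if h : ∃ u : Ob P X, kindOf u = k ∧ code u = z then h.choose else .dp ∅

theorem decOb_code (u : Ob P X) : decOb (kindOf u) (code u) = u := by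
  have h : ∃ v : Ob P X, kindOf v = kindOf u ∧ code v = code u := ⟨u, rfl, rfl⟩
  rw [decOb, dif_pos h]
  exact code_inj_kind h.choose_spec.1 h.choose_spec.2

theorem zipWith_decOb (l : List (Ob P X)) :
    List.zipWith (decOb (P := P) (X := X)) (l.map kindOf) (l.map code) = l := by
  induction l with
  | nil => rfl
  | cons u l ih => rw [List.map_cons, List.map_cons, List.zipWith_cons_cons, ih, decOb_code]

/-- a countable elementary submodel which is closed under the functions `F i` -/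
theorem exists_M {ι : Type} [Countable ι] (F : ι → List (Ob P X) → Ob P X) :
    ∃ (S : Type) (_ : Membership S S) (e : S → ZFSet.{1}), Countable S ∧ Function.Injective e ∧ ElemU e ∧
      ∀ (i : ι) (l : List (Ob P X)), (∀ u ∈ l, ∃ s, e s = code u) → ∃ s, e s = code (F i l) := by
  obtain ⟨S, hS, e, h1, h2, h3, h4⟩ := exists_sub (ι := ι × List ℕ)
    fun i l => code (F i.1 (List.zipWith (decOb (P := P) (X := X)) i.2 l))
  refine ⟨S, hS, e, h1, h2, h3, fun i l hl => ?_⟩
  have h5 : ∃ l' : List S, l'.map e = l.map code := by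
    clear h4
    induction l with
    | nil => exact ⟨[], rfl⟩
    | cons u l ih =>
      obtain ⟨l', h6⟩ := ih fun v hv => hl v (List.mem_cons_of_mem _ hv)
      obtain ⟨s, hs⟩ := hl u List.mem_cons_self
      exact ⟨s :: l', by rw [List.map_cons, List.map_cons, h6, hs]⟩
  obtain ⟨l', h6⟩ := h5
  obtain ⟨s, hs⟩ := h4 (i, l.map kindOf) l'
  refine ⟨s, ?_⟩
  rw [hs, h6]
  simp only
  rw [zipWith_decOb]

end

end Pool.Agent.SSL
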