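import Pool.Agent.SSL.LSU

/-!
# Transfer from the universe to an elementary submodel
-/

namespace Pool.Agent.SSL

open FirstOrder Set Cardinal Pool.Agent.Helper79.ZF Pool.Agent.Helper79.Kurepa

namespace TrU

universe u

section
variable {S : Type} {M : Type u} [Membership S S] [Membership M M] {α : Type}

attribute [-instance] instStr
attribute [local instance] strU

/-- a pair of relations given by the same formula -/
def UD {α : Type} (RS : (α → S) → Prop) (RM : (α → M) → Prop) : Prop :=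
  ∃ φ : LSet.Formula α, (∀ v, RS v ↔ φ.Realize v) ∧ (∀ v, RM v ↔ φ.Realize v)

theorem UD.mem (i j : α) : UD (fun v : α → S => v i ∈ v j) (fun v : α → M => v i ∈ v j) := by
  refine ⟨Language.Relations.formula₂ (show LSet.Relations 2 from .mem) (Language.Term.var i) (Language.Term.var j), ?_, ?_⟩ <;>
  · intro v
    rw [Language.Formula.realize_rel₂]
    simp [Language.Structure.RelMap]

theorem UD.eq (i j : α) : UD (fun v : α → S => v i = v j) (fun v : α → M => v i = v j) := by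
  refine ⟨(Language.Term.var i).equal (Language.Term.var j), ?_, ?_⟩ <;>
  · intro v
    simp

theorem UD.not {A : (α → S) → Prop} {B : (α → M) → Prop} (h : UD A B) : UD (fun v => ¬ A v) (fun v => ¬ B v) := by
  obtain ⟨φ, h1, h2⟩ := h
  exact ⟨∼φ, fun v => by beta_reduce; rw [h1, Language.Formula.realize_not], fun v => by beta_reduce; rw [h2, Language.Formula.realize_not]⟩

theorem UD.and {A A' : (α → S) → Prop} {B B' : (α → M) → Prop} (h : UD A B) (h' : UD A' B') :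
    UD (fun v => A v ∧ A' v) (fun v => B v ∧ B' v) := by
  obtain ⟨φ, h1, h2⟩ := h
  obtain ⟨ψ, h3, h4⟩ := h'
  exact ⟨φ ⊓ ψ, fun v => by beta_reduce; rw [h1, h3, Language.Formula.realize_inf], fun v => by beta_reduce; rw [h2, h4, Language.Formula.realize_inf]⟩

theorem UD.or {A A' : (α → S) → Prop} {B B' : (α → M) → Prop} (h : UD A B) (h' : UD A' B') :
    UD (fun v => A v ∨ A' v) (fun v => B v ∨ B' v) := by
  obtain ⟨φ, h1, h2⟩ := h
  obtain ⟨ψ, h3, h4⟩ := h'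
  exact ⟨φ ⊔ ψ, fun v => by beta_reduce; rw [h1, h3, Language.Formula.realize_sup], fun v => by beta_reduce; rw [h2, h4, Language.Formula.realize_sup]⟩

theorem UD.imp {A A' : (α → S) → Prop} {B B' : (α → M) → Prop} (h : UD A B) (h' : UD A' B') :
    UD (fun v => A v → A' v) (fun v => B v → B' v) := by
  obtain ⟨φ, h1, h2⟩ := h
  obtain ⟨ψ, h3, h4⟩ := h'
  exact ⟨φ.imp ψ, fun v => by beta_reduce; rw [h1, h3, Language.Formula.realize_imp], fun v => by beta_reduce; rw [h2, h4, Language.Formula.realize_imp]⟩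

theorem UD.iff {A A' : (α → S) → Prop} {B B' : (α → M) → Prop} (h : UD A B) (h' : UD A' B') :
    UD (fun v => A v ↔ A' v) (fun v => B v ↔ B' v) := by
  obtain ⟨φ, h1, h2⟩ := h
  obtain ⟨ψ, h3, h4⟩ := h'
  exact ⟨φ.iff ψ, fun v => by beta_reduce; rw [h1, h3, Language.Formula.realize_iff], fun v => by beta_reduce; rw [h2, h4, Language.Formula.realize_iff]⟩

theorem UD.all {A : (α → S) → S → Prop} {B : (α → M) → M → Prop}
    (h : UD (fun v : (α ⊕ Unit) → S => A (fun i => v (Sum.inl i)) (v (Sum.inr ())))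
      (fun v : (α ⊕ Unit) → M => B (fun i => v (Sum.inl i)) (v (Sum.inr ())))) :
    UD (fun v => ∀ x, A v x) (fun v => ∀ x, B v x) := by
  obtain ⟨φ, h1, h2⟩ := h
  refine ⟨φ.iAlls Unit, fun v => ?_, fun v => ?_⟩
  · rw [Language.Formula.realize_iAlls]
    constructor
    · intro h i
      rw [← h1]
      exact h _
    · intro h x
      have := h (fun _ => x)
      rw [← h1] at this
      exact this
  · rw [Language.Formula.realize_iAlls]
    constructor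
    · intro h i
      rw [← h2]
      exact h _
    · intro h x
      have := h (fun _ => x)
      rw [← h2] at this
      exact this

theorem UD.ex {A : (α → S) → S → Prop} {B : (α → M) → M → Prop}
    (h : UD (fun v : (α ⊕ Unit) → S => A (fun i => v (Sum.inl i)) (v (Sum.inr ())))
      (fun v : (α ⊕ Unit) → M => B (fun i => v (Sum.inl i)) (v (Sum.inr ())))) :
    UD (fun v => ∃ x, A v x) (fun v => ∃ x, B v x) := by
  have h' := (UD.all (A := fun v x => ¬ A v x) (B := fun v x => ¬ B v x) h.not).not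
  simpa only [not_forall, not_not] using h'

theorem UD.comp {β : Type} {A : (β → S) → Prop} {B : (β → M) → Prop} (h : UD A B) (r : β → α) :
    UD (fun v : α → S => A (fun i => v (r i))) (fun v : α → M => B (fun i => v (r i))) := by
  obtain ⟨φ, h1, h2⟩ := h
  exact ⟨φ.relabel r, fun v => by beta_reduce; rw [h1, Language.Formula.realize_relabel]; rfl,
    fun v => by beta_reduce; rw [h2, Language.Formula.realize_relabel]; rfl⟩

theorem UD.transfer {j : S → M} (hj : ElemU j) {A : (α → S) → Prop} {B : (α → M) → Prop} (h : UD A B) (v : α → S) :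
    A v ↔ B (fun i => j (v i)) := by
  obtain ⟨φ, h1, h2⟩ := h
  rw [h1, h2]
  exact (hj α φ v).symm

/-- the formula of a Kuratowski pair -/
def PairU (p x y : M) : Prop :=
  ∀ z : M, z ∈ p ↔ ((∀ w : M, w ∈ z ↔ w = x) ∨ ∀ w : M, w ∈ z ↔ (w = x ∨ w = y))

/-- subset -/
def SubU (A B : M) : Prop := ∀ x : M, x ∈ A → x ∈ B

/-- inductive set -/
def IndU (I : M) : Prop := (∃ e : M, e ∈ I ∧ ∀ z : M, ¬ z ∈ e) ∧
  ∀ y : M, y ∈ I → ∃ z : M, z ∈ I ∧ ∀ w : M, w ∈ z ↔ (w ∈ y ∨ w = y)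

/-- least inductive set -/
def OmegaU (W : M) : Prop := IndU W ∧ ∀ I : M, IndU I → SubU W I

/-- existence of an injection -/
def LeU (A B : M) : Prop := ∃ f : M,
  (∀ x : M, x ∈ A → ∃ y : M, y ∈ B ∧ ∃ p : M, p ∈ f ∧ PairU p x y) ∧
  (∀ x y z p q : M, p ∈ f → q ∈ f → PairU p x y → PairU q x z → y = z) ∧
  (∀ x y z p q : M, p ∈ f → q ∈ f → PairU p x z → PairU q y z → x = y)

/-- choice -/
def ACU (M : Type u) [Membership M M] : Prop := ∀ X : M, (∀ y : M, y ∈ X → ∃ z : M, z ∈ y) →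
  ∃ f : M, ∀ y : M, y ∈ X → ∃ z : M, z ∈ y ∧ ∀ w p : M, PairU p y w → (p ∈ f ↔ w = z)

theorem UD.msub (i j : α) : UD (fun v : α → S => MSub (v i) (v j)) (fun v : α → M => SubU (v i) (v j)) :=
  UD.all (UD.imp (UD.mem _ _) (UD.mem _ _))

theorem UD.isPair (i j k : α) : UD (fun v : α → S => IsPair (v i) (v j) (v k)) (fun v : α → M => PairU (v i) (v j) (v k)) :=
  UD.all (UD.iff (UD.mem _ _) (UD.or (UD.all (UD.iff (UD.mem _ _) (UD.eq _ _))) (UD.all (UD.iff (UD.mem _ _) (UD.or (UD.eq _ _) (UD.eq _ _))))))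

theorem UD.le (i j : α) : UD (fun v : α → S => Le (v i) (v j)) (fun v : α → M => LeU (v i) (v j)) := by
  refine UD.ex (UD.and ?_ (UD.and ?_ ?_))
  · exact UD.all (UD.imp (UD.mem _ _) (UD.ex (UD.and (UD.mem _ _) (UD.ex (UD.and (UD.mem _ _) (UD.isPair _ _ _))))))
  · refine UD.all (UD.all (UD.all (UD.all (UD.all ?_))))
    exact UD.imp (UD.mem _ _) (UD.imp (UD.mem _ _) (UD.imp (UD.isPair _ _ _) (UD.imp (UD.isPair _ _ _) (UD.eq _ _))))
  · refine UD.all (UD.all (UD.all (UD.all (UD.all ?_))))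
    exact UD.imp (UD.mem _ _) (UD.imp (UD.mem _ _) (UD.imp (UD.isPair _ _ _) (UD.imp (UD.isPair _ _ _) (UD.eq _ _))))

theorem UD.isInd (i : α) : UD (fun v : α → S => IsInd (v i)) (fun v : α → M => IndU (v i)) := by
  refine UD.and (UD.ex (UD.and (UD.mem _ _) (UD.all (UD.not (UD.mem _ _))))) ?_
  exact UD.all (UD.imp (UD.mem _ _) (UD.ex (UD.and (UD.mem _ _) (UD.all (UD.iff (UD.mem _ _) (UD.or (UD.mem _ _) (UD.eq _ _)))))))

theorem UD.isOmega (i : α) : UD (fun v : α → S => IsOmega (v i)) (fun v : α → M => OmegaU (v i)) :=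
  UD.and (UD.isInd _) (UD.all (UD.imp (UD.isInd _) (UD.msub _ _)))

theorem UD.ac : UD (fun _ : Empty → S => AC S) (fun _ : Empty → M => ACU M) := by
  refine UD.all (UD.imp ?_ (UD.ex ?_))
  · exact UD.all (UD.imp (UD.mem _ _) (UD.ex (UD.mem _ _)))
  · refine UD.all (UD.imp (UD.mem _ _) (UD.ex (UD.and (UD.mem _ _) ?_)))
    exact UD.all (UD.all (UD.imp (UD.isPair _ _ _) (UD.iff (UD.mem _ _) (UD.eq _ _))))

end

/-! ### the universe -/

theorem pairU_iff {p x y : ZFSet.{u}} : PairU p x y ↔ p = ZFSet.pair x y := by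
  unfold PairU
  have h1 : ∀ z : ZFSet.{u}, (∀ w : ZFSet.{u}, w ∈ z ↔ w = x) ↔ z = {x} := by
    intro z
    rw [ZFSet.ext_iff]
    simp only [ZFSet.mem_singleton]
  have h2 : ∀ z : ZFSet.{u}, (∀ w : ZFSet.{u}, w ∈ z ↔ (w = x ∨ w = y)) ↔ z = {x, y} := by
    intro z
    rw [ZFSet.ext_iff]
    simp only [ZFSet.mem_pair]
  simp only [h1, h2]
  rw [ZFSet.ext_iff]
  simp only [ZFSet.pair, ZFSet.mem_pair]

theorem subU_iff {x y : ZFSet.{u}} : SubU x y ↔ x ⊆ y := by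
  unfold SubU
  rw [ZFSet.subset_def]

theorem mem_omega {x : ZFSet.{u}} : x ∈ ZFSet.omega ↔ ∃ n : ℕ, x = ZFSet.mk (PSet.ofNat n) := by
  constructor
  · intro h
    induction x using Quotient.inductionOn with
    | _ x =>
      obtain ⟨⟨n⟩, hn⟩ := h
      exact ⟨n, ZFSet.sound hn⟩
  · rintro ⟨n, rfl⟩
    exact ⟨⟨n⟩, PSet.Equiv.rfl⟩

theorem indU_omega : IndU (ZFSet.omega.{u}) := by
  refine ⟨⟨∅, ZFSet.omega_zero, fun z => ZFSet.notMem_empty z⟩, fun y hy => ?_⟩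
  refine ⟨insert y y, ZFSet.omega_succ hy, fun w => ?_⟩
  rw [ZFSet.mem_insert_iff, or_comm]

theorem omega_sub {I : ZFSet.{u}} (h : IndU I) : ZFSet.omega ⊆ I := by
  obtain ⟨⟨e, he, he'⟩, h2⟩ := h
  have h0 : e = ∅ := (ZFSet.eq_empty e).2 he'
  intro x hx
  obtain ⟨n, rfl⟩ := mem_omega.1 hx
  clear hx
  induction n with
  | zero =>
    rw [h0] at he
    exact he
  | succ n ih =>
    obtain ⟨z, hz, hz'⟩ := h2 _ ih
    have h3 : z = insert (ZFSet.mk (PSet.ofNat n)) (ZFSet.mk (PSet.ofNat n)) := by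
      ext w
      rw [hz', ZFSet.mem_insert_iff, or_comm]
    rw [h3] at hz
    exact hz

theorem omegaU_iff {W : ZFSet.{u}} : OmegaU W ↔ W = ZFSet.omega := by
  constructor
  · rintro ⟨h1, h2⟩
    have h3 := subU_iff.1 (h2 _ indU_omega)
    have h4 := omega_sub h1
    exact Std.Antisymm.antisymm (r := (· ⊆ ·)) _ _ h3 h4
  · rintro rfl
    exact ⟨indU_omega, fun I hI => subU_iff.2 (omega_sub hI)⟩

theorem acU : ACU (ZFSet.{u}) := by
  classical
  intro X hX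
  refine ⟨ZFSet.range (fun y : {y // y ∈ X} => ZFSet.pair y.1 (hX y.1 y.2).choose), fun y hy => ?_⟩
  refine ⟨(hX y hy).choose, (hX y hy).choose_spec, fun w p hp => ?_⟩
  rw [pairU_iff] at hp
  subst hp
  rw [ZFSet.mem_range]
  constructor
  · rintro ⟨⟨y', hy'⟩, h⟩
    obtain ⟨rfl, rfl⟩ := ZFSet.pair_injective h
    rfl
  · rintro rfl
    exact ⟨⟨y, hy⟩, rfl⟩

theorem repl {X : ZFSet.{u}} (R : ZFSet.{u} → ZFSet.{u} → Prop)
    (h : ∀ y : ZFSet.{u}, y ∈ X → ∃ z : ZFSet.{u}, R y z ∧ ∀ z' : ZFSet.{u}, R y z' → z' = z) :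
    ∃ w : ZFSet.{u}, ∀ z : ZFSet.{u}, z ∈ w ↔ ∃ y : ZFSet.{u}, y ∈ X ∧ R y z := by
  classical
  refine ⟨ZFSet.range (fun y : {y // y ∈ X} => (h y.1 y.2).choose), fun z => ?_⟩
  rw [ZFSet.mem_range]
  constructor
  · rintro ⟨⟨y, hy⟩, rfl⟩
    exact ⟨y, hy, (h y hy).choose_spec.1⟩
  · rintro ⟨y, hy, hz⟩
    exact ⟨⟨y, hy⟩, ((h y hy).choose_spec.2 z hz).symm⟩

end TrU

open TrU

variable {S : Type} [Membership S S] {e : S → ZFSet.{1}}

theorem ElemU.inj (he : ElemU e) {x y : S} (h : e x = e y) : x = y :=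
  (UD.transfer he (UD.eq (α := Bool) true false) (fun b => if b then x else y)).2 (by simpa using h)

theorem ElemU.mem (he : ElemU e) {x y : S} : x ∈ y ↔ e x ∈ e y := by
  have := UD.transfer he (UD.mem (α := Bool) true false) (fun b => if b then x else y)
  simpa using this

theorem ElemU.sub (he : ElemU e) {x y : S} : MSub x y ↔ e x ⊆ e y := by
  have := UD.transfer he (UD.msub (α := Bool) true false) (fun b => if b then x else y)
  rw [← subU_iff]
  simpa using this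

theorem ElemU.pair (he : ElemU e) {p x y : S} : IsPair p x y ↔ e p = ZFSet.pair (e x) (e y) := by
  have := UD.transfer he (UD.isPair (α := Fin 3) 0 1 2) ![p, x, y]
  rw [← pairU_iff]
  simpa using this

theorem ElemU.omega (he : ElemU e) {W : S} : IsOmega W ↔ e W = ZFSet.omega := by
  have := UD.transfer he (UD.isOmega (α := Unit) ()) (fun _ => W)
  rw [← omegaU_iff]
  simpa using this

theorem ElemU.exists_omega (he : ElemU e) : ∃ W : S, e W = ZFSet.omega := by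
  have := UD.transfer he (UD.ex (α := Empty) (A := fun _ W => IsOmega W) (B := fun _ W => OmegaU W)
    (UD.isOmega _)) Empty.elim
  obtain ⟨W, hW⟩ := this.2 ⟨ZFSet.omega, omegaU_iff.2 rfl⟩
  exact ⟨W, he.omega.1 hW⟩

theorem ElemU.ex_sub (he : ElemU e) {x y : S} (h : ∃ z ∈ e y, e x ⊆ z) : ∃ z : S, z ∈ y ∧ MSub x z := by
  have := UD.transfer he (UD.ex (α := Bool) (A := fun v z => z ∈ v false ∧ MSub (v true) z)
    (B := fun v z => z ∈ v false ∧ SubU (v true) z)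
    (UD.and (UD.mem _ _) (UD.msub _ _))) (fun b => if b then x else y)
  have h2 := this.2 (by
    obtain ⟨z, hz, hz'⟩ := h
    exact ⟨z, hz, subU_iff.2 hz'⟩)
  simpa using h2

theorem ElemU.le (he : ElemU e) {A B : S} (h : ∃ f : ZFSet.{1}, (∀ x ∈ e A, ∃ y ∈ e B, ZFSet.pair x y ∈ f) ∧
    (∀ x y z, ZFSet.pair x y ∈ f → ZFSet.pair x z ∈ f → y = z) ∧
    ∀ x y z, ZFSet.pair x z ∈ f → ZFSet.pair y z ∈ f → x = y) : Le A B := by
  have := UD.transfer he (UD.le (α := Bool) true false) (fun b => if b then A else B)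
  have h2 : LeU (e A) (e B) := by
    obtain ⟨f, h1, h2, h3⟩ := h
    refine ⟨f, fun x hx => ?_, fun x y z p q hp hq h4 h5 => ?_, fun x y z p q hp hq h4 h5 => ?_⟩
    · obtain ⟨y, hy, hp⟩ := h1 x hx
      exact ⟨y, hy, _, hp, pairU_iff.2 rfl⟩
    · rw [pairU_iff] at h4 h5
      subst h4 h5
      exact h2 x y z hp hq
    · rw [pairU_iff] at h4 h5
      subst h4 h5
      exact h3 x y z hp hq
  exact this.2 (by simpa using h2)

theorem ElemU.rel2 (he : ElemU e) {t A B : S} (h : ∀ z, z ∈ t → ∃ a, a ∈ A ∧ ∃ b, b ∈ B ∧ IsPair z a b) :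
    ∀ z ∈ e t, ∃ a ∈ e A, ∃ b ∈ e B, z = ZFSet.pair a b := by
  have := UD.transfer he (UD.all (α := Fin 3)
    (A := fun v z => z ∈ v 0 → ∃ a, a ∈ v 1 ∧ ∃ b, b ∈ v 2 ∧ IsPair z a b)
    (B := fun v z => z ∈ v 0 → ∃ a, a ∈ v 1 ∧ ∃ b, b ∈ v 2 ∧ PairU z a b)
    (UD.imp (UD.mem _ _) (UD.ex (UD.and (UD.mem _ _) (UD.ex (UD.and (UD.mem _ _) (UD.isPair _ _ _)))))))
    ![t, A, B]
  have h2 := this.1 h
  intro z hz
  obtain ⟨a, ha, b, hb, hp⟩ := h2 z hz
  exact ⟨a, ha, b, hb, pairU_iff.1 hp⟩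

theorem ElemU.rel3 (he : ElemU e) {t A B : S}
    (h : ∀ z, z ∈ t → ∃ a, a ∈ A ∧ ∃ b, b ∈ B ∧ ∃ c, c ∈ B ∧ ∃ d, IsPair d b c ∧ IsPair z a d) :
    ∀ z ∈ e t, ∃ a ∈ e A, ∃ b ∈ e B, ∃ c ∈ e B, z = ZFSet.pair a (ZFSet.pair b c) := by
  have := UD.transfer he (UD.all (α := Fin 3)
    (A := fun v z => z ∈ v 0 → ∃ a, a ∈ v 1 ∧ ∃ b, b ∈ v 2 ∧ ∃ c, c ∈ v 2 ∧ ∃ d, IsPair d b c ∧ IsPair z a d)
    (B := fun v z => z ∈ v 0 → ∃ a, a ∈ v 1 ∧ ∃ b, b ∈ v 2 ∧ ∃ c, c ∈ v 2 ∧ ∃ d, PairU d b c ∧ PairU z a d)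
    (UD.imp (UD.mem _ _) (UD.ex (UD.and (UD.mem _ _) (UD.ex (UD.and (UD.mem _ _)
      (UD.ex (UD.and (UD.mem _ _) (UD.ex (UD.and (UD.isPair _ _ _) (UD.isPair _ _ _)))))))))))
    ![t, A, B]
  have h2 := this.1 h
  intro z hz
  obtain ⟨a, ha, b, hb, c, hc, d, hd, hp⟩ := h2 z hz
  exact ⟨a, ha, b, hb, c, hc, by rw [← pairU_iff.1 hd]; exact pairU_iff.1 hp⟩

/-- elementary submodels of the universe are models of ZF -/
theorem TrU.zf (he : ElemU e) : ZFModel S where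
  ext := by
    have := UD.transfer he (UD.all (α := Empty) (A := fun _ x => ∀ y : S, (∀ z : S, z ∈ x ↔ z ∈ y) → x = y)
      (B := fun _ x => ∀ y : ZFSet.{1}, (∀ z : ZFSet.{1}, z ∈ x ↔ z ∈ y) → x = y)
      (UD.all (A := fun v y => (∀ z : S, z ∈ v (Sum.inr ()) ↔ z ∈ y) → v (Sum.inr ()) = y)
        (B := fun v y => (∀ z : ZFSet.{1}, z ∈ v (Sum.inr ()) ↔ z ∈ y) → v (Sum.inr ()) = y)
        (UD.imp (UD.all (UD.iff (UD.mem (Sum.inr ()) (Sum.inl (Sum.inl (Sum.inr ())))) (UD.mem (Sum.inr ()) (Sum.inl (Sum.inr ()))))) (UD.eq _ _)))) Empty.elim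
    exact this.2 (fun x y h => ZFSet.ext h)
  found := by
    have := UD.transfer he (UD.all (α := Empty) (A := fun _ x => (∃ y : S, y ∈ x) → ∃ y : S, y ∈ x ∧ ∀ z : S, z ∈ y → ¬ z ∈ x)
      (B := fun _ x => (∃ y : ZFSet.{1}, y ∈ x) → ∃ y : ZFSet.{1}, y ∈ x ∧ ∀ z : ZFSet.{1}, z ∈ y → ¬ z ∈ x)
      (UD.imp (UD.ex (UD.mem _ _)) (UD.ex (UD.and (UD.mem _ _) (UD.all (UD.imp (UD.mem _ _) (UD.not (UD.mem _ _)))))))) Empty.elim
    refine this.2 (fun x h => ?_)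
    obtain ⟨y0, hy0⟩ := h
    obtain ⟨y, hy, hxy⟩ := ZFSet.regularity x (by rintro rfl; exact ZFSet.notMem_empty _ hy0)
    refine ⟨y, hy, fun z hz hzx => ?_⟩
    have : z ∈ x ∩ y := ZFSet.mem_inter.2 ⟨hzx, hz⟩
    rw [hxy] at this
    exact ZFSet.notMem_empty _ this
  pair := by
    have := UD.transfer he (UD.all (α := Empty) (A := fun _ x => ∀ y : S, ∃ z : S, ∀ w : S, w ∈ z ↔ (w = x ∨ w = y))
      (B := fun _ x => ∀ y : ZFSet.{1}, ∃ z : ZFSet.{1}, ∀ w : ZFSet.{1}, w ∈ z ↔ (w = x ∨ w = y))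
      (UD.all (A := fun v y => ∃ z : S, ∀ w : S, w ∈ z ↔ (w = v (Sum.inr ()) ∨ w = y))
        (B := fun v y => ∃ z : ZFSet.{1}, ∀ w : ZFSet.{1}, w ∈ z ↔ (w = v (Sum.inr ()) ∨ w = y))
        (UD.ex (UD.all (UD.iff (UD.mem _ _) (UD.or (UD.eq _ _) (UD.eq _ _))))))) Empty.elim
    exact this.2 (fun x y => ⟨{x, y}, fun w => ZFSet.mem_pair⟩)
  union := by
    have := UD.transfer he (UD.all (α := Empty) (A := fun _ x => ∃ y : S, ∀ z : S, z ∈ y ↔ ∃ w : S, w ∈ x ∧ z ∈ w)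
      (B := fun _ x => ∃ y : ZFSet.{1}, ∀ z : ZFSet.{1}, z ∈ y ↔ ∃ w : ZFSet.{1}, w ∈ x ∧ z ∈ w)
      (UD.ex (UD.all (UD.iff (UD.mem _ _) (UD.ex (UD.and (UD.mem _ _) (UD.mem _ _))))))) Empty.elim
    exact this.2 (fun x => ⟨ZFSet.sUnion x, fun z => ZFSet.mem_sUnion⟩)
  power := by
    have := UD.transfer he (UD.all (α := Empty) (A := fun _ x => ∃ y : S, ∀ z : S, z ∈ y ↔ ∀ w : S, w ∈ z → w ∈ x)
      (B := fun _ x => ∃ y : ZFSet.{1}, ∀ z : ZFSet.{1}, z ∈ y ↔ ∀ w : ZFSet.{1}, w ∈ z → w ∈ x)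
      (UD.ex (UD.all (UD.iff (UD.mem _ _) (UD.all (UD.imp (UD.mem _ _) (UD.mem _ _))))))) Empty.elim
    exact this.2 (fun x => ⟨ZFSet.powerset x, fun z => by rw [ZFSet.mem_powerset, ZFSet.subset_def]⟩)
  infinity := by
    have := UD.transfer he (UD.ex (α := Empty) (A := fun _ x => (∃ e : S, e ∈ x ∧ ∀ z : S, ¬ z ∈ e) ∧
        ∀ y : S, y ∈ x → ∃ z : S, z ∈ x ∧ ∀ w : S, w ∈ z ↔ (w ∈ y ∨ w = y))
      (B := fun _ x => (∃ e : ZFSet.{1}, e ∈ x ∧ ∀ z : ZFSet.{1}, ¬ z ∈ e) ∧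
        ∀ y : ZFSet.{1}, y ∈ x → ∃ z : ZFSet.{1}, z ∈ x ∧ ∀ w : ZFSet.{1}, w ∈ z ↔ (w ∈ y ∨ w = y))
      (UD.and (UD.ex (UD.and (UD.mem _ _) (UD.all (UD.not (UD.mem _ _)))))
        (UD.all (UD.imp (UD.mem _ _) (UD.ex (UD.and (UD.mem _ _) (UD.all (UD.iff (UD.mem _ _) (UD.or (UD.mem _ _) (UD.eq _ _)))))))))) Empty.elim
    exact this.2 ⟨ZFSet.omega, indU_omega⟩
  separation := by
    intro X hX x
    rw [Set.Definable₁, Set.definable_iff_exists_formula_sum] at hX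
    obtain ⟨φ, hφ⟩ := hX
    have h1 : UD (fun v : (((Set.univ : Set S) ⊕ Fin 1) → S) => @Language.Formula.Realize LSet S (strU S) _ φ v)
        (fun v : (((Set.univ : Set S) ⊕ Fin 1) → ZFSet.{1}) => @Language.Formula.Realize LSet ZFSet.{1} (strU _) _ φ v) :=
      ⟨φ, fun _ => Iff.rfl, fun _ => Iff.rfl⟩
    have h2 : UD (fun v : (((Set.univ : Set S) ⊕ Fin 1) → S) => ∃ y : S, ∀ z : S, z ∈ y ↔ (z ∈ v (Sum.inr 0) ∧
        @Language.Formula.Realize LSet S (strU S) _ φ (Sum.elim (fun i => v (Sum.inl i)) (fun _ => z))))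
      (fun v : (((Set.univ : Set S) ⊕ Fin 1) → ZFSet.{1}) => ∃ y : ZFSet.{1}, ∀ z : ZFSet.{1}, z ∈ y ↔ (z ∈ v (Sum.inr 0) ∧
        @Language.Formula.Realize LSet ZFSet.{1} (strU _) _ φ (Sum.elim (fun i => v (Sum.inl i)) (fun _ => z)))) := by
      refine UD.ex (UD.all (UD.iff (UD.mem _ _) (UD.and (UD.mem _ _) ?_)))
      have h3 := h1.comp (α := ((((Set.univ : Set S) ⊕ Fin 1) ⊕ Unit) ⊕ Unit))
        (Sum.elim (fun i => Sum.inl (Sum.inl (Sum.inl i))) (fun _ => Sum.inr ()))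
      convert h3 using 2 with v
      · congr! 1
        funext i; rcases i with i | i <;> rfl
      · congr! 1
        funext i; rcases i with i | i <;> rfl
    obtain ⟨y, hy⟩ := (h2.transfer he (Sum.elim (fun i => i.1) (fun _ => x))).2
      ⟨ZFSet.sep (fun z => @Language.Formula.Realize LSet ZFSet.{1} (strU _) _ φ
        (Sum.elim (fun i : (Set.univ : Set S) => e i.1) (fun _ : Fin 1 => z))) (e x),
        fun z => ZFSet.mem_sep⟩
    refine ⟨y, fun z => ?_⟩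
    rw [hy]
    refine and_congr Iff.rfl ?_
    have : (z ∈ X) ↔ (fun _ : Fin 1 => z) ∈ {x : Fin 1 → S | X (x 0)} := Iff.rfl
    rw [this]
    have h5 := Set.ext_iff.1 hφ (fun _ => z)
    exact h5.symm
  replacement := by
    intro X hX x hx
    rw [Set.Definable₂, Set.definable_iff_exists_formula_sum] at hX
    obtain ⟨φ, hφ⟩ := hX
    have h1 : UD (fun v : (((Set.univ : Set S) ⊕ Fin 2) → S) => @Language.Formula.Realize LSet S (strU S) _ φ v)
        (fun v : (((Set.univ : Set S) ⊕ Fin 2) → ZFSet.{1}) => @Language.Formula.Realize LSet ZFSet.{1} (strU _) _ φ v) :=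
      ⟨φ, fun _ => Iff.rfl, fun _ => Iff.rfl⟩
    let pS : (↥(Set.univ : Set S) → S) → S → S → Prop := fun p a b =>
      @Language.Formula.Realize LSet S (strU S) _ φ (Sum.elim p (fun i : Fin 2 => if i = 0 then a else b))
    let pM : (↥(Set.univ : Set S) → ZFSet.{1}) → ZFSet.{1} → ZFSet.{1} → Prop := fun p a b =>
      @Language.Formula.Realize LSet ZFSet.{1} (strU _) _ φ (Sum.elim p (fun i : Fin 2 => if i = 0 then a else b))
    have base : ∀ {β : Type} (r : ↥(Set.univ : Set S) → β) (a b : β), UD (fun v : β → S => pS (fun i => v (r i)) (v a) (v b))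
        (fun v : β → ZFSet.{1} => pM (fun i => v (r i)) (v a) (v b)) := by
      intro β r a b
      have h3 := h1.comp (α := β) (Sum.elim r (fun i : Fin 2 => if i = 0 then a else b))
      convert h3 using 2 with v
      · simp only [pS]
        congr! 1
        funext i; rcases i with i | i
        · rfl
        · by_cases hi : i = 0 <;> simp [hi]
      · simp only [pM]
        congr! 1
        funext i; rcases i with i | i
        · rfl
        · by_cases hi : i = 0 <;> simp [hi]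
    have h2 : UD (fun v : (((Set.univ : Set S) ⊕ Unit) → S) =>
        (∀ y : S, y ∈ v (Sum.inr ()) → ∃ z : S, pS (fun i => v (Sum.inl i)) y z ∧ ∀ z' : S, pS (fun i => v (Sum.inl i)) y z' → z' = z) →
        ∃ w : S, ∀ z : S, z ∈ w ↔ ∃ y : S, y ∈ v (Sum.inr ()) ∧ pS (fun i => v (Sum.inl i)) y z)
      (fun v : (((Set.univ : Set S) ⊕ Unit) → ZFSet.{1}) =>
        (∀ y : ZFSet.{1}, y ∈ v (Sum.inr ()) → ∃ z : ZFSet.{1}, pM (fun i => v (Sum.inl i)) y z ∧
          ∀ z' : ZFSet.{1}, pM (fun i => v (Sum.inl i)) y z' → z' = z) →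
        ∃ w : ZFSet.{1}, ∀ z : ZFSet.{1}, z ∈ w ↔ ∃ y : ZFSet.{1}, y ∈ v (Sum.inr ()) ∧ pM (fun i => v (Sum.inl i)) y z) := by
      refine UD.imp (UD.all (UD.imp (UD.mem _ _) (UD.ex (UD.and ?_ (UD.all (UD.imp ?_ (UD.eq _ _)))))))
        (UD.ex (UD.all (UD.iff (UD.mem _ _) (UD.ex (UD.and (UD.mem _ _) ?_)))))
      · exact base _ _ _
      · exact base _ _ _
      · exact base _ _ _
    have hX' : ∀ a b, pS (fun i => i.1) a b ↔ (a, b) ∈ X := by
      intro a b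
      have h5 := Set.ext_iff.1 hφ (fun i : Fin 2 => if i = 0 then a else b)
      exact h5.symm
    obtain ⟨y, hy⟩ := (h2.transfer he (Sum.elim (fun i => i.1) (fun _ => x))).2
      (fun h6 => repl (fun a b => pM (fun i => e i.1) a b) h6) (by
      intro y hy
      obtain ⟨z, hz1, hz2⟩ := hx y hy
      exact ⟨z, (hX' _ _).2 hz1, fun z' hz' => hz2 z' ((hX' _ _).1 hz')⟩)
    refine ⟨y, fun z => ?_⟩
    rw [hy]
    constructor
    · rintro ⟨y', h5, h6⟩; exact ⟨y', h5, (hX' _ _).1 h6⟩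
    · rintro ⟨y', h5, h6⟩; exact ⟨y', h5, (hX' _ _).2 h6⟩

/-- elementary submodels of the universe are models of ZFC -/
theorem ElemU.zfc (he : ElemU e) : ZFCModel S :=
  ⟨TrU.zf he, (UD.transfer he UD.ac Empty.elim).2 acU⟩

end Pool.Agent.SSL
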