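import Pool.Agent.SSL.Code
import Pool.Agent.SSL.TrU
import Pool.Agent.Helper79.Kurepa.Abs

/-!
# The generic extension of the elementary submodel: definitions
-/

namespace Pool.Agent.SSL

open Set Pool.Agent.Helper79.ZF Pool.Agent.Helper79.Kurepa

/-! ### a small calculus of formulas for the transfer of the existence of components of pairs -/

section Mini

open FirstOrder

variable {S : Type} [Membership S S]

@[reducible] private def strZ : LSet.Structure ZFSet.{1} := strU ZFSet.{1}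

attribute [local instance] strZ

private def U2 {α : Type} (RS : (α → S) → Prop) (RM : (α → ZFSet.{1}) → Prop) : Prop :=
  ∃ φ : LSet.Formula α, (∀ v, RS v ↔ @Language.Formula.Realize LSet S (strU S) α φ v) ∧
    (∀ v, RM v ↔ @Language.Formula.Realize LSet ZFSet.{1} (strU ZFSet.{1}) α φ v)

variable {α : Type}

private theorem U2.mem (i j : α) : U2 (fun v : α → S => v i ∈ v j) (fun v => v i ∈ v j) := by
  refine ⟨Language.Relations.formula₂ (show LSet.Relations 2 from .mem) (Language.Term.var i)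
    (Language.Term.var j), ?_, ?_⟩ <;>
  · intro v
    rw [Language.Formula.realize_rel₂]
    simp [Language.Structure.RelMap]

private theorem U2.eq (i j : α) : U2 (fun v : α → S => v i = v j) (fun v => v i = v j) := by
  refine ⟨(Language.Term.var i).equal (Language.Term.var j), ?_, ?_⟩ <;>
  · intro v
    simp

private theorem U2.not {A : (α → S) → Prop} {B : (α → ZFSet.{1}) → Prop} (h : U2 A B) :
    U2 (fun v => ¬ A v) (fun v => ¬ B v) := by
  obtain ⟨φ, h1, h2⟩ := h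
  exact ⟨∼φ, fun v => by beta_reduce; rw [h1, Language.Formula.realize_not],
    fun v => by beta_reduce; rw [h2, Language.Formula.realize_not]⟩

private theorem U2.or {A A' : (α → S) → Prop} {B B' : (α → ZFSet.{1}) → Prop} (h : U2 A B)
    (h' : U2 A' B') : U2 (fun v => A v ∨ A' v) (fun v => B v ∨ B' v) := by
  obtain ⟨φ, h1, h2⟩ := h
  obtain ⟨ψ, h3, h4⟩ := h'
  exact ⟨φ ⊔ ψ, fun v => by beta_reduce; rw [h1, h3, Language.Formula.realize_sup],
    fun v => by beta_reduce; rw [h2, h4, Language.Formula.realize_sup]⟩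

private theorem U2.iff {A A' : (α → S) → Prop} {B B' : (α → ZFSet.{1}) → Prop} (h : U2 A B)
    (h' : U2 A' B') : U2 (fun v => A v ↔ A' v) (fun v => B v ↔ B' v) := by
  obtain ⟨φ, h1, h2⟩ := h
  obtain ⟨ψ, h3, h4⟩ := h'
  exact ⟨φ.iff ψ, fun v => by beta_reduce; rw [h1, h3, Language.Formula.realize_iff],
    fun v => by beta_reduce; rw [h2, h4, Language.Formula.realize_iff]⟩

private theorem U2.all {A : (α → S) → S → Prop} {B : (α → ZFSet.{1}) → ZFSet.{1} → Prop}
    (h : U2 (fun v : (α ⊕ Unit) → S => A (fun i => v (Sum.inl i)) (v (Sum.inr ())))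
      (fun v : (α ⊕ Unit) → ZFSet.{1} => B (fun i => v (Sum.inl i)) (v (Sum.inr ())))) :
    U2 (fun v => ∀ x, A v x) (fun v => ∀ x, B v x) := by
  obtain ⟨φ, h1, h2⟩ := h
  refine ⟨φ.iAlls Unit, fun v => ?_, fun v => ?_⟩
  · rw [Language.Formula.realize_iAlls]
    constructor
    · intro h i
      rw [← h1]
      exact h _
    · intro h x
      have := h (fun _ => x)
      rw [← h1] at this
      exact this
  · rw [Language.Formula.realize_iAlls]
    constructor
    · intro h i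
      rw [← h2]
      exact h _
    · intro h x
      have := h (fun _ => x)
      rw [← h2] at this
      exact this

private theorem U2.ex {A : (α → S) → S → Prop} {B : (α → ZFSet.{1}) → ZFSet.{1} → Prop}
    (h : U2 (fun v : (α ⊕ Unit) → S => A (fun i => v (Sum.inl i)) (v (Sum.inr ())))
      (fun v : (α ⊕ Unit) → ZFSet.{1} => B (fun i => v (Sum.inl i)) (v (Sum.inr ())))) :
    U2 (fun v => ∃ x, A v x) (fun v => ∃ x, B v x) := by
  have h' := (U2.all (A := fun v x => ¬ A v x) (B := fun v x => ¬ B v x) h.not).not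
  simpa only [not_forall, not_not] using h'

private def ZPair (p x y : ZFSet.{1}) : Prop :=
  ∀ z : ZFSet.{1}, z ∈ p ↔ ((∀ w : ZFSet.{1}, w ∈ z ↔ w = x) ∨ ∀ w : ZFSet.{1}, w ∈ z ↔ (w = x ∨ w = y))

private theorem zPair_pair (x y : ZFSet.{1}) : ZPair (ZFSet.pair x y) x y := by
  intro z
  rw [ZFSet.pair, ZFSet.mem_pair]
  constructor
  · rintro (rfl | rfl)
    · left; intro w; rw [ZFSet.mem_singleton]
    · right; intro w; rw [ZFSet.mem_pair]
  · rintro (h | h)
    · left; ext w; rw [h, ZFSet.mem_singleton]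
    · right; ext w; rw [h, ZFSet.mem_pair]

private theorem exists_comp {e : S → ZFSet.{1}} (he : ElemU e) {s : S} {x y : ZFSet.{1}}
    (h : e s = ZFSet.pair x y) : ∃ a b : S, e a = x ∧ e b = y := by
  have h1 : U2 (α := Unit) (fun v : Unit → S => ∃ a b : S, IsPair (v ()) a b)
      (fun v => ∃ a b : ZFSet.{1}, ZPair (v ()) a b) := by
    refine U2.ex (U2.ex (U2.all (U2.iff (U2.mem _ _) (U2.or (U2.all (U2.iff (U2.mem _ _)
      (U2.eq _ _))) (U2.all (U2.iff (U2.mem _ _) (U2.or (U2.eq _ _) (U2.eq _ _))))))))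
  obtain ⟨φ, h2, h3⟩ := h1
  have h4 : ∃ a b : S, IsPair s a b := by
    have h5 := (h2 (fun _ => s)).2
    apply h5
    rw [← he]
    apply (h3 _).1
    refine ⟨x, y, ?_⟩
    rw [h]
    exact zPair_pair x y
  obtain ⟨a, b, h5⟩ := h4
  rw [he.pair, h] at h5
  obtain ⟨h6, h7⟩ := ZFSet.pair_injective h5
  exact ⟨a, b, h6.symm, h7.symm⟩

end Mini

/-- the generic extension of the elementary submodel -/
structure Cx (P : Type 1) (X : Type) [PartialOrder P] (S N : Type) [Membership S S] [Membership N N] [ZFCM S]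
    [ZFModel N] where
  e : S → ZFSet.{1}
  he : ElemU e
  PM : S
  XM : S
  hPM : e PM = code (.dp univ : Ob P X)
  hXM : e XM = code (.dx univ : Ob P X)
  g : GenExt S N PM (sing emp)

namespace Cx

section
variable {P : Type 1} {X : Type} [PartialOrder P] {S N : Type} [Membership S S] [Membership N N] [ZFCM S]
  [ZFModel N] (c : Cx P X S N)

/-- the object `u` belongs to the submodel -/
def Md (u : Ob P X) : Prop := ∃ s, c.e s = code u

open Classical in
/-- the element of the submodel which codes `u` -/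
noncomputable def mm (u : Ob P X) : S := if h : ∃ s, c.e s = code u then h.choose else c.PM

/-- the generic filter -/
def G : Set P := {p | c.Md (.p p) ∧ c.g.j (opair (c.mm (.p p)) emp) ∈ c.g.G}

/-- the points in the extension -/
noncomputable def j (x : X) : N := c.g.j (c.mm (.x x))

variable {c}

theorem mm_spec {u : Ob P X} (h : c.Md u) : c.e (c.mm u) = code u := by
  have h' : ∃ s, c.e s = code u := h
  unfold mm
  rw [dif_pos h']
  exact h'.choose_spec

private theorem eq_mm {u : Ob P X} {s : S} (h : c.e s = code u) : c.Md u ∧ s = c.mm u := by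
  have hM : c.Md u := ⟨s, h⟩
  exact ⟨hM, c.he.inj (h.trans (mm_spec hM).symm)⟩

/-- the elements of the set of all conditions -/
theorem mem_PM {s : S} : s ∈ c.PM ↔ ∃ p : P, c.Md (.p p) ∧ s = c.mm (.p p) := by
  rw [c.he.mem, c.hPM, mem_code_dp]
  constructor
  · rintro ⟨p, -, hp⟩
    exact ⟨p, eq_mm (u := .p p) hp⟩
  · rintro ⟨p, hp, rfl⟩
    exact ⟨p, mem_univ p, mm_spec hp⟩

theorem mem_XM {s : S} : s ∈ c.XM ↔ ∃ x : X, c.Md (.x x) ∧ s = c.mm (.x x) := by
  rw [c.he.mem, c.hXM, mem_code_dx]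
  constructor
  · rintro ⟨p, -, hp⟩
    exact ⟨p, eq_mm (u := .x p) hp⟩
  · rintro ⟨p, hp, rfl⟩
    exact ⟨p, mem_univ p, mm_spec hp⟩

theorem mem_dp {E : Set P} (hE : c.Md (.dp E)) {s : S} :
    s ∈ c.mm (.dp E) ↔ ∃ p ∈ E, c.Md (.p p) ∧ s = c.mm (.p p) := by
  rw [c.he.mem, mm_spec hE, mem_code_dp]
  constructor
  · rintro ⟨p, hpE, hp⟩
    exact ⟨p, hpE, eq_mm (u := .p p) hp⟩
  · rintro ⟨p, hpE, hp, rfl⟩
    exact ⟨p, hpE, mm_spec hp⟩

theorem mem_dx {A : Set X} (hA : c.Md (.dx A)) {s : S} :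
    s ∈ c.mm (.dx A) ↔ ∃ x ∈ A, c.Md (.x x) ∧ s = c.mm (.x x) := by
  rw [c.he.mem, mm_spec hA, mem_code_dx]
  constructor
  · rintro ⟨p, hpE, hp⟩
    exact ⟨p, hpE, eq_mm (u := .x p) hp⟩
  · rintro ⟨p, hpE, hp, rfl⟩
    exact ⟨p, hpE, mm_spec hp⟩

private theorem e_opair (a b : S) : c.e (opair a b) = ZFSet.pair (c.e a) (c.e b) := by
  rw [← c.he.pair, isPair_iff]

theorem mem_r1 {R : Set (P × X)} (hR : c.Md (.r1 R)) {s : S} :
    s ∈ c.mm (.r1 R) ↔ ∃ p x, (p, x) ∈ R ∧ c.Md (.p p) ∧ c.Md (.x x) ∧ s = opair (c.mm (.p p)) (c.mm (.x x)) := by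
  rw [c.he.mem, mm_spec hR, mem_code_r1]
  constructor
  · rintro ⟨p, x, hpx, hs⟩
    obtain ⟨a, b, ha, hb⟩ := exists_comp c.he hs
    obtain ⟨hp, rfl⟩ := eq_mm (u := .p p) ha
    obtain ⟨hx, rfl⟩ := eq_mm (u := .x x) hb
    refine ⟨p, x, hpx, hp, hx, ?_⟩
    rw [← isPair_iff, c.he.pair, hs, ha, hb]
  · rintro ⟨p, x, hpx, hp, hx, rfl⟩
    refine ⟨p, x, hpx, ?_⟩
    rw [e_opair, mm_spec hp, mm_spec hx]
    rfl

theorem mem_r2 {R : Set (P × X × X)} (hR : c.Md (.r2 R)) {s : S} :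
    s ∈ c.mm (.r2 R) ↔ ∃ p x y, (p, x, y) ∈ R ∧ c.Md (.p p) ∧ c.Md (.x x) ∧ c.Md (.x y) ∧
      s = opair (c.mm (.p p)) (opair (c.mm (.x x)) (c.mm (.x y))) := by
  rw [c.he.mem, mm_spec hR, mem_code_r2]
  constructor
  · rintro ⟨p, x, y, hpx, hs⟩
    obtain ⟨a, d, ha, hd⟩ := exists_comp c.he hs
    obtain ⟨b, b', hb, hb'⟩ := exists_comp c.he hd
    obtain ⟨hp, rfl⟩ := eq_mm (u := .p p) ha
    obtain ⟨hx, rfl⟩ := eq_mm (u := .x x) hb
    obtain ⟨hy, rfl⟩ := eq_mm (u := .x y) hb'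
    refine ⟨p, x, y, hpx, hp, hx, hy, ?_⟩
    rw [← isPair_iff, c.he.pair, hs, e_opair, ha, hb, hb']
  · rintro ⟨p, x, y, hpx, hp, hx, hy, rfl⟩
    refine ⟨p, x, y, hpx, ?_⟩
    rw [e_opair, e_opair, mm_spec hp, mm_spec hx, mm_spec hy]
    rfl

theorem mm_p_inj {p q : P} (hp : c.Md (.p p)) (hq : c.Md (.p q)) (h : c.mm (.p p) = c.mm (.p q)) : p = q := by
  have h1 : code (.p p : Ob P X) = code (.p q : Ob P X) := by
    rw [← mm_spec hp, ← mm_spec hq, h]
  exact cP_inj h1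

theorem mm_x_inj {x y : X} (hx : c.Md (.x x)) (hy : c.Md (.x y)) (h : c.mm (.x x) = c.mm (.x y)) : x = y := by
  have h1 : code (.x x : Ob P X) = code (.x y : Ob P X) := by
    rw [← mm_spec hx, ← mm_spec hy, h]
  exact cX_inj h1

theorem msub_iff {p q : P} (hp : c.Md (.p p)) (hq : c.Md (.p q)) : MSub (c.mm (.p p)) (c.mm (.p q)) ↔ q ≤ p := by
  rw [c.he.sub, mm_spec hp, mm_spec hq]
  exact cP_sub

/-- the generic filter of the extension -/
theorem mem_gG {z : N} : z ∈ c.g.G ↔ ∃ p ∈ c.G, z = c.g.j (opair (c.mm (.p p)) emp) := by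
  constructor
  · intro hz
    obtain ⟨p', r, hp', hr, rfl⟩ := c.g.G_sub z hz
    obtain ⟨p, hp, rfl⟩ := mem_PM.1 hp'
    obtain rfl := mem_sing.1 hr
    exact ⟨p, ⟨hp, hz⟩, rfl⟩
  · rintro ⟨p, hp, rfl⟩
    exact hp.2

end

end Cx

end Pool.Agent.SSL
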