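import Pool.Agent.SSL.GenD

/-!
# The generic extension of the elementary submodel: the filter and countable sets
-/

namespace Pool.Agent.SSL

open Set Pool.Agent.Helper79.ZF Pool.Agent.Helper79.Kurepa

/-- numerals -/
noncomputable def nuE (n : ℕ) : ZFSet.{1} := ZFSet.mk (PSet.ofNat n)

theorem nuE_succ (n : ℕ) : nuE (n + 1) = insert (nuE n) (nuE n) := rfl

theorem nuE_mem_omega (n : ℕ) : nuE n ∈ ZFSet.omega.{1} := by
  induction n with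
  | zero => exact ZFSet.omega_zero
  | succ n ih => rw [nuE_succ]; exact ZFSet.omega_succ ih

theorem mem_omega_iff' {z : ZFSet.{1}} : z ∈ ZFSet.omega.{1} ↔ ∃ n, z = nuE n := by
  constructor
  · induction z using Quotient.inductionOn with
    | h x =>
      rintro ⟨n, hn⟩
      exact ⟨n.down, Quotient.sound hn⟩
  · rintro ⟨n, rfl⟩; exact nuE_mem_omega n

theorem nuE_lt {m n : ℕ} (h : m < n) : nuE m ∈ nuE n := by
  induction n with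
  | zero => omega
  | succ n ih =>
    rw [nuE_succ, ZFSet.mem_insert_iff]
    rcases Nat.lt_succ_iff_lt_or_eq.1 h with h | rfl
    · exact Or.inr (ih h)
    · exact Or.inl rfl

theorem nuE_inj {m n : ℕ} (h : nuE m = nuE n) : m = n := by
  rcases lt_trichotomy m n with h' | h' | h'
  · exact absurd (h ▸ nuE_lt h') (ZFSet.mem_irrefl _)
  · exact h'
  · exact absurd (h ▸ nuE_lt h') (ZFSet.mem_irrefl _)

namespace Cx

section
variable {P : Type 1} {X : Type} [PartialOrder P] {S N : Type} [Membership S S] [Membership N N] [ZFCM S]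
  [ZFModel N] (c : Cx P X S N)

include c in
theorem zfcN : ZFCModel N := ⟨inferInstance, (GenExt.zfc c.g).ac⟩

theorem up {p q : P} (hp : p ∈ c.G) (hpq : p ≤ q) (hq : c.Md (.p q)) : q ∈ c.G := by
  refine ⟨hq, ?_⟩
  exact c.g.up (c.mm (.p q)) emp (c.mm (.p p)) emp hp.2 (mem_PM.2 ⟨q, hq, rfl⟩) (mem_sing.2 rfl)
    ((msub_iff hq hp.1).2 hpq) (fun _ h => h)

theorem dir {p q : P} (hp : p ∈ c.G) (hq : q ∈ c.G) : ∃ r ∈ c.G, r ≤ p ∧ r ≤ q := by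
  obtain ⟨p', r', h1, h2, _, h3, _⟩ := c.g.dir _ _ _ _ hp.2 hq.2
  obtain ⟨h4, h5⟩ := c.g.G_mem h1
  rw [mem_sing] at h5
  subst h5
  obtain ⟨r, hr, rfl⟩ := mem_PM.1 h4
  exact ⟨r, ⟨hr, h1⟩, (msub_iff hp.1 hr).1 h2, (msub_iff hq.1 hr).1 h3⟩

theorem gen {E : Set P} (hE : c.Md (.dp E)) (hd : ∀ p, ∃ q ≤ p, q ∈ E) : ∃ p ∈ c.G, p ∈ E := by
  obtain ⟨p', r', h1, h2⟩ := c.g.gen (fun p _ => p ∈ c.mm (.dp E)) (by fun_prop) (by
    intro p r hp hr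
    obtain ⟨p0, hp0, rfl⟩ := mem_PM.1 hp
    obtain ⟨q, hq, hqE⟩ := hd p0
    obtain ⟨z, hz, hz'⟩ := c.he.ex_sub (x := c.mm (.p p0)) (y := c.mm (.dp E)) (by
      rw [mm_spec hp0, mm_spec hE]
      exact ⟨cP q, mem_code_dp.2 ⟨q, hqE, rfl⟩, cP_sub.2 hq⟩)
    obtain ⟨q', hq', hq'', rfl⟩ := (mem_dp hE).1 hz
    exact ⟨_, r, ⟨mem_PM.2 ⟨q', hq'', rfl⟩, hr, hz', fun _ h => h⟩, hz⟩)
  obtain ⟨h3, h4⟩ := c.g.G_mem h1
  rw [mem_sing] at h4
  subst h4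
  obtain ⟨q, hq, hq', rfl⟩ := (mem_dp hE).1 h2
  exact ⟨q, ⟨hq', h1⟩, hq⟩

theorem G_ne : c.G.Nonempty := by
  obtain ⟨p', r', h1, _⟩ := c.g.gen (fun _ _ => True) (by fun_prop) (by
    intro p r hp hr
    exact ⟨p, r, Ex.refl hp hr, trivial⟩)
  obtain ⟨h3, h4⟩ := c.g.G_mem h1
  rw [mem_sing] at h4
  subst h4
  obtain ⟨q, hq, rfl⟩ := mem_PM.1 h3
  exact ⟨q, hq, h1⟩

theorem j_inj {x y : X} (hx : c.Md (.x x)) (hy : c.Md (.x y)) (h : c.j x = c.j y) : x = y :=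
  mm_x_inj hx hy (c.g.inj h)

theorem ctb {A : Set X} (hA : c.Md (.dx A)) (hc : A.Countable) {t : N}
    (ht : ∀ z, z ∈ t → ∃ x ∈ A, c.Md (.x x) ∧ z = c.j x) {W : N} (hW : IsOmega W) : Le t W := by
  obtain ⟨W0, hW0⟩ := c.he.exists_omega
  have hW0' : IsOmega W0 := c.he.omega.2 hW0
  have : Countable A := hc.to_subtype
  obtain ⟨n, hn⟩ := exists_injective_nat A
  have h1 : Le (c.mm (.dx A)) W0 := by
    apply c.he.le
    rw [mm_spec hA, hW0]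
    refine ⟨ZFSet.range (fun x : ULift.{1} A => ZFSet.pair (cX x.down.1) (nuE (n x.down))), ?_, ?_, ?_⟩
    · intro x hx
      obtain ⟨a, ha, rfl⟩ := mem_code_dx.1 hx
      exact ⟨nuE (n ⟨a, ha⟩), nuE_mem_omega _, ZFSet.mem_range.2 ⟨⟨⟨a, ha⟩⟩, rfl⟩⟩
    · intro x y z hxy hxz
      obtain ⟨⟨a⟩, ha⟩ := ZFSet.mem_range.1 hxy
      obtain ⟨⟨b⟩, hb⟩ := ZFSet.mem_range.1 hxz
      obtain ⟨h1, h2⟩ := ZFSet.pair_inj.1 ha
      obtain ⟨h3, h4⟩ := ZFSet.pair_inj.1 hb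
      have : a = b := Subtype.ext (cX_inj (h1.trans h3.symm))
      subst this
      exact h2.symm.trans h4
    · intro x y z hxz hyz
      obtain ⟨⟨a⟩, ha⟩ := ZFSet.mem_range.1 hxz
      obtain ⟨⟨b⟩, hb⟩ := ZFSet.mem_range.1 hyz
      obtain ⟨h1, h2⟩ := ZFSet.pair_inj.1 ha
      obtain ⟨h3, h4⟩ := ZFSet.pair_inj.1 hb
      have : a = b := hn (nuE_inj (h2.trans h4.symm))
      subst this
      exact h1.symm.trans h3
  have h2 := c.g.j_le h1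
  have h3 : c.g.j W0 = W := by
    rw [isOmega_iff.1 hW, isOmega_iff.1 hW0', c.g.j_om]
  rw [h3] at h2
  refine Le.trans (Le.of_sub ?_) h2
  intro z hz
  obtain ⟨x, hx, hx', rfl⟩ := ht z hz
  exact c.g.j_mem_j.2 ((mem_dx hA).2 ⟨x, hx, hx', rfl⟩)

theorem unc {A : Set X} (hA : c.Md (.dx A)) (hc : A.Countable) (hi : A.Infinite) {t W : N} (hW : IsOmega W) (ht : Le t W) :
    ∃ f : N, (∀ z, z ∈ t → ∃ a ∈ A, c.Md (.x a) ∧ MRel f z (c.j a)) ∧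
      ∀ z z' a, z ∈ t → z' ∈ t → c.Md (.x a) → MRel f z (c.j a) → MRel f z' (c.j a) → z = z' := by
  obtain ⟨W0, hW0⟩ := c.he.exists_omega
  have hW0' : IsOmega W0 := c.he.omega.2 hW0
  have : Infinite A := hi.to_subtype
  let n : ℕ → A := Infinite.natEmbedding A
  have hn : Function.Injective n := (Infinite.natEmbedding A).injective
  have h1 : Le W0 (c.mm (.dx A)) := by
    apply c.he.le
    rw [mm_spec hA, hW0]
    refine ⟨ZFSet.range (fun i : ULift.{1} ℕ => ZFSet.pair (nuE i.down) (cX (n i.down).1)), ?_, ?_, ?_⟩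
    · intro x hx
      obtain ⟨i, rfl⟩ := mem_omega_iff'.1 hx
      exact ⟨cX (n i).1, mem_code_dx.2 ⟨_, (n i).2, rfl⟩, ZFSet.mem_range.2 ⟨⟨i⟩, rfl⟩⟩
    · intro x y z hxy hxz
      obtain ⟨⟨a⟩, ha⟩ := ZFSet.mem_range.1 hxy
      obtain ⟨⟨b⟩, hb⟩ := ZFSet.mem_range.1 hxz
      obtain ⟨h1, h2⟩ := ZFSet.pair_inj.1 ha
      obtain ⟨h3, h4⟩ := ZFSet.pair_inj.1 hb
      have : a = b := nuE_inj (h1.trans h3.symm)
      subst this
      exact h2.symm.trans h4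
    · intro x y z hxz hyz
      obtain ⟨⟨a⟩, ha⟩ := ZFSet.mem_range.1 hxz
      obtain ⟨⟨b⟩, hb⟩ := ZFSet.mem_range.1 hyz
      obtain ⟨h1, h2⟩ := ZFSet.pair_inj.1 ha
      obtain ⟨h3, h4⟩ := ZFSet.pair_inj.1 hb
      have : a = b := hn (Subtype.ext (cX_inj (h2.trans h4.symm)))
      subst this
      exact h1.symm.trans h3
  have h2 := c.g.j_le h1
  have h3 : c.g.j W0 = W := by
    rw [isOmega_iff.1 hW, isOmega_iff.1 hW0', c.g.j_om]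
  rw [h3] at h2
  obtain ⟨f, hf1, _, hf3⟩ := Le.trans ht h2
  refine ⟨f, ?_, ?_⟩
  · intro z hz
    obtain ⟨y, hy, p, hp, hp'⟩ := hf1 z hz
    obtain ⟨s, hs, rfl⟩ := c.g.mem_j.1 hy
    obtain ⟨a, ha, ha', rfl⟩ := (mem_dx hA).1 hs
    exact ⟨a, ha, ha', p, hp, hp'⟩
  · rintro z z' a _ _ _ ⟨p, hp, hp'⟩ ⟨q, hq, hq'⟩
    exact hf3 z z' (c.j a) p q hp hq hp' hq'

end

end Cx

end Pool.Agent.SSL
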