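import Mathlib
import Pool.Agent.Helper79.Kurepa.Model

/-!
# Interface: generic extensions of countable elementary submodels, seen from Lean types
-/

namespace Pool.Agent.SSL

open Set Pool.Agent.Helper79.ZF Pool.Agent.Helper79.Kurepa

/-- `(x, y)` belongs to the relation `R` of the model -/
def MRel {N : Type} [Membership N N] (R x y : N) : Prop := ∃ p : N, p ∈ R ∧ IsPair p x y

/-- objects: conditions, points, sets of conditions, sets of points, names of sets of points and of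
relations -/
inductive Ob (P : Type 1) (X : Type) : Type 1
  | p (a : P)
  | x (a : X)
  | dp (a : Set P)
  | dx (a : Set X)
  | r1 (a : Set (P × X))
  | r2 (a : Set (P × X × X))

/-- `N` is a generic extension, by a filter `G` of the partial order `P`, of a countable elementary
submodel `𝓜` which is closed under the functions `F i`. -/
structure GenX (P : Type 1) (X : Type) [PartialOrder P] {ι : Type} (F : ι → List (Ob P X) → Ob P X)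
    (𝓜 : Set (Ob P X)) (N : Type) [Membership N N] (j : X → N) (G : Set P) : Prop where
  zfc : ZFCModel N
  closed : ∀ i l, (∀ u ∈ l, u ∈ 𝓜) → F i l ∈ 𝓜
  Gsub : ∀ p ∈ G, Ob.p p ∈ 𝓜
  up : ∀ p ∈ G, ∀ q, p ≤ q → Ob.p q ∈ 𝓜 → q ∈ G
  dir : ∀ p ∈ G, ∀ q ∈ G, ∃ r ∈ G, r ≤ p ∧ r ≤ q
  ne : G.Nonempty
  gen : ∀ E : Set P, Ob.dp E ∈ 𝓜 → (∀ p, ∃ q ≤ p, q ∈ E) → ∃ p ∈ G, p ∈ E
  inj : ∀ x y, Ob.x x ∈ 𝓜 → Ob.x y ∈ 𝓜 → j x = j y → x = y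
  set1 : ∀ R : Set (P × X), Ob.r1 R ∈ 𝓜 → ∃ t : N, ∀ z : N, z ∈ t ↔ ∃ x, Ob.x x ∈ 𝓜 ∧ z = j x ∧ ∃ p ∈ G, (p, x) ∈ R
  name1 : ∀ t : N, ∃ R : Set (P × X), Ob.r1 R ∈ 𝓜 ∧ ∀ x, Ob.x x ∈ 𝓜 → (j x ∈ t ↔ ∃ p ∈ G, (p, x) ∈ R)
  set2 : ∀ R : Set (P × X × X), Ob.r2 R ∈ 𝓜 → ∃ t : N, ∀ x y, Ob.x x ∈ 𝓜 → Ob.x y ∈ 𝓜 →
    (MRel t (j x) (j y) ↔ ∃ p ∈ G, (p, x, y) ∈ R)
  name2 : ∀ t : N, ∃ R : Set (P × X × X), Ob.r2 R ∈ 𝓜 ∧ ∀ x y, Ob.x x ∈ 𝓜 → Ob.x y ∈ 𝓜 →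
    (MRel t (j x) (j y) ↔ ∃ p ∈ G, (p, x, y) ∈ R)
  ctb : ∀ A : Set X, Ob.dx A ∈ 𝓜 → A.Countable → ∀ t : N, (∀ z, z ∈ t → ∃ x ∈ A, Ob.x x ∈ 𝓜 ∧ z = j x) →
    ∀ W : N, IsOmega W → Le t W
  unc : ∀ A : Set X, Ob.dx A ∈ 𝓜 → A.Countable → A.Infinite → ∀ t W : N, IsOmega W → Le t W →
    ∃ f : N, (∀ z, z ∈ t → ∃ a ∈ A, Ob.x a ∈ 𝓜 ∧ MRel f z (j a)) ∧
      ∀ z z' a, z ∈ t → z' ∈ t → Ob.x a ∈ 𝓜 → MRel f z (j a) → MRel f z' (j a) → z = z'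

end Pool.Agent.SSL
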